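import Pool.Agent.Y444.UN.Defs

/-!
# Robust points of closed sets (UN-ROB)

Author helper584, for project UN of helper444.
-/

set_option autoImplicit false

open MeasureTheory Set Filter Topology
open scoped ENNReal

namespace Pool.Agent.Y584.UN.Rob

open Pool.Agent.Y444.UN

/-- uniformly finitely many coordinates decide membership in an open set around a compact set -/
theorem unif {K U : Set Om} (hK : IsCompact K) (hU : IsOpen U) (h : K ⊆ U) :
    ∃ F : Finset Idx, ∀ y ∈ K, ∀ x : Om, (∀ k ∈ F, x k = y k) → x ∈ U := by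
  classical
  refine hK.induction_on (p := fun s => ∃ F : Finset Idx, ∀ y ∈ s, ∀ x : Om,
    (∀ k ∈ F, x k = y k) → x ∈ U) ?_ ?_ ?_ ?_
  · exact ⟨∅, fun y hy => absurd hy (notMem_empty y)⟩
  · rintro s t hst ⟨F, hF⟩
    exact ⟨F, fun y hy => hF y (hst hy)⟩
  · rintro s t ⟨F, hF⟩ ⟨F', hF'⟩
    refine ⟨F ∪ F', ?_⟩
    rintro y (hy | hy) x hx
    · exact hF y hy x (fun k hk => hx k (Finset.mem_union_left _ hk))
    · exact hF' y hy x (fun k hk => hx k (Finset.mem_union_right _ hk))
  · intro x hx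
    obtain ⟨I, u, hu, hI⟩ := isOpen_pi_iff.1 hU x (h hx)
    refine ⟨{y | ∀ k ∈ I, y k = x k}, mem_nhdsWithin_of_mem_nhds ?_, I, ?_⟩
    · have h1 : {y : Om | ∀ k ∈ I, y k = x k} = ⋂ k ∈ I, {y : Om | y k = x k} := by
        ext y; simp
      rw [h1]
      refine (Filter.biInter_finset_mem I).2 fun k _ => ?_
      exact (continuous_apply k).continuousAt.preimage_mem_nhds
        ((isOpen_discrete {x k}).mem_nhds rfl)
    · intro y hy x' hx'
      apply hI
      intro k hk
      have h2 : x' k = x k := (hx' k hk).trans (hy k hk)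
      rw [h2]
      exact (hu k hk).2

/-- approximation of a closed set by clopen sets from outside -/
theorem approx [IsProbabilityMeasure P] {K : Set Om} (hK : IsClosed K) {δ : ℝ≥0∞} (hδ : δ ≠ 0) :
    ∃ (F : Finset Idx) (V : Set Om), MeasurableSet V ∧ K ⊆ V ∧ P (V \ K) ≤ δ ∧
      ∀ x y : Om, (∀ k ∈ F, x k = y k) → x ∈ V → y ∈ V := by
  obtain ⟨U, hKU, hU, hUδ⟩ := hK.measurableSet.exists_isOpen_sdiff_lt (μ := P)
    (measure_ne_top P K) hδ
  obtain ⟨F, hF⟩ := unif hK.isCompact hU hKU
  let ρ : Om → (F → Bool) := fun x k => x k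
  have hρ : Measurable ρ := measurable_pi_lambda _ fun k => measurable_pi_apply (k : Idx)
  refine ⟨F, ρ ⁻¹' (ρ '' K), hρ (Set.toFinite _).measurableSet, subset_preimage_image _ _, ?_, ?_⟩
  · refine (measure_mono ?_).trans hUδ.2.le
    apply sdiff_subset_sdiff_left
    rintro x ⟨y, hy, hxy⟩
    exact hF y hy x (fun k hk => (congrFun hxy ⟨k, hk⟩).symm)
  · rintro x y hxy ⟨w, hw, hwx⟩
    refine ⟨w, hw, ?_⟩
    rw [hwx]
    funext k
    exact hxy k k.2

/-- **robust points** -/
theorem t : IndStm → RobStm := by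
  rintro ⟨hP, -, hflip, -⟩ K hK hPK
  have hPt : P K ≠ ∞ := measure_ne_top P K
  have hδ : ∀ n : ℕ, P K * (8 : ℝ≥0∞)⁻¹ ^ (n + 1) ≠ 0 := fun n =>
    mul_ne_zero hPK (ENNReal.pow_pos (by simp) _).ne'
  choose F V hVm hKV hVδ hVF using fun n => approx hK (hδ n)
  refine ⟨fun n => 1 + (F n).sup (fun k => k.2.1), ?_⟩
  intro f hf
  classical
  let p : ℕ → Idx := fun i => (i, f i, 0)
  have hp : ∀ n, p n ∉ F n := by
    intro n hn
    have h1 : (p n).2.1 ≤ (F n).sup (fun k => k.2.1) :=
      Finset.le_sup (f := fun k : Idx => k.2.1) hn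
    have h2 := hf n
    change f n ≤ _ at h1
    simp only at h2
    omega
  let S : ℕ → Finset Idx := fun N => (Finset.range N).image p
  let B : ℕ → Set Om := fun n => ⋃ A ∈ (S (n + 1)).powerset, (flip A) ⁻¹' (V n \ K)
  have hBm : ∀ n, MeasurableSet (B n) := fun n => Finset.measurableSet_biUnion _ fun A _ =>
    (hflip A).measurable ((hVm n).diff hK.measurableSet)
  have hB : ∀ n, P (B n) ≤ P K * (4 : ℝ≥0∞)⁻¹ ^ (n + 1) := by
    intro n
    refine (measure_biUnion_finset_le _ _).trans ?_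
    have h1 : ∀ A ∈ (S (n + 1)).powerset, P ((flip A) ⁻¹' (V n \ K)) ≤
        P K * (8 : ℝ≥0∞)⁻¹ ^ (n + 1) := by
      intro A _
      rw [(hflip A).measure_preimage ((hVm n).diff hK.measurableSet).nullMeasurableSet]
      exact hVδ n
    refine (Finset.sum_le_card_nsmul _ _ _ h1).trans ?_
    rw [nsmul_eq_mul, Finset.card_powerset]
    have h2 : (S (n + 1)).card ≤ n + 1 := by
      refine Finset.card_image_le.trans ?_
      rw [Finset.card_range]
    have h3 : (((2 : ℕ) ^ (S (n + 1)).card : ℕ) : ℝ≥0∞) ≤ 2 ^ (n + 1) := by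
      push_cast
      exact pow_le_pow_right₀ (by norm_num) h2
    refine (mul_le_mul' h3 le_rfl).trans (le_of_eq ?_)
    have h4 : (4 : ℝ≥0∞)⁻¹ = 2 * 8⁻¹ := by
      have h5 : (8 : ℝ≥0∞) = 2 * 4 := by norm_num
      rw [h5, ENNReal.mul_inv (by left; norm_num) (by left; norm_num), ← mul_assoc,
        ENNReal.mul_inv_cancel (by norm_num) (by norm_num), one_mul]
    rw [h4, mul_pow]
    ring
  have hBs : P (⋃ n, B n) < P K := by
    have h1 : ∑' n, P K * (4 : ℝ≥0∞)⁻¹ ^ (n + 1) = P K * 3⁻¹ := by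
      rw [ENNReal.tsum_mul_left]
      congr 1
      have h2 : ∑' n : ℕ, (4 : ℝ≥0∞)⁻¹ ^ (n + 1) = 4⁻¹ * ∑' n : ℕ, (4 : ℝ≥0∞)⁻¹ ^ n := by
        rw [← ENNReal.tsum_mul_left]
        apply tsum_congr
        intro n
        rw [pow_succ, mul_comm]
      rw [h2, ENNReal.tsum_geometric]
      have h3 : (1 - (4 : ℝ≥0∞)⁻¹)⁻¹ = 4 * 3⁻¹ := by
        have h4 : (1 : ℝ≥0∞) - 4⁻¹ = 3 * 4⁻¹ := by
          apply ENNReal.sub_eq_of_eq_add (by simp)
          have h5 : (3 : ℝ≥0∞) * 4⁻¹ + 4⁻¹ = (3 + 1) * 4⁻¹ := by rw [add_mul, one_mul]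
          rw [h5]
          have h6 : (3 : ℝ≥0∞) + 1 = 4 := by norm_num
          rw [h6, ENNReal.mul_inv_cancel (by norm_num) (by norm_num)]
        rw [h4, ENNReal.mul_inv (by left; norm_num) (by left; norm_num), inv_inv, mul_comm]
      rw [h3, ← mul_assoc, ENNReal.inv_mul_cancel (by norm_num) (by norm_num), one_mul]
    have h2 : P (⋃ n, B n) ≤ P K * 3⁻¹ := by
      rw [← h1]
      exact (measure_iUnion_le _).trans (ENNReal.tsum_le_tsum hB)
    refine lt_of_le_of_lt h2 ?_
    have h3 : (3 : ℝ≥0∞)⁻¹ < 1 := by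
      rw [ENNReal.inv_lt_one]; norm_num
    calc P K * 3⁻¹ < P K * 1 := (ENNReal.mul_lt_mul_iff_right hPK hPt).2 h3
      _ = P K := mul_one _
  refine ⟨K \ ⋃ n, B n, hK.measurableSet.diff (MeasurableSet.iUnion hBm), ?_, ?_⟩
  · intro h0
    have h1 : P K ≤ P (K \ ⋃ n, B n) + P (⋃ n, B n) := by
      refine (measure_mono ?_).trans (measure_union_le _ _)
      intro x hx
      by_cases h : x ∈ ⋃ n, B n
      · exact Or.inr h
      · exact Or.inl ⟨hx, h⟩
    rw [h0, zero_add] at h1
    exact absurd hBs (not_lt.2 h1)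
  · rintro e ⟨heK, heB⟩ z
    let x : Om := comb f e z
    let y : ℕ → Om := fun N k => if k ∈ S N then x k else e k
    have hy : ∀ N, ∃ A ⊆ S N, y N = flip A e := by
      intro N
      refine ⟨(S N).filter (fun k => x k ≠ e k), Finset.filter_subset _ _, ?_⟩
      funext k
      simp only [y, Pool.Agent.Y444.UN.flip, Finset.mem_filter]
      by_cases h1 : k ∈ S N
      · by_cases h2 : x k = e k
        · rw [if_pos h1, if_neg (by tauto), h2]
        · rw [if_pos h1, if_pos ⟨h1, h2⟩]
          revert h2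
          cases x k <;> cases e k <;> simp
      · rw [if_neg h1, if_neg (by tauto)]
    have hyK : ∀ N, y N ∈ K := by
      intro N
      induction N with
      | zero =>
        have h1 : y 0 = e := by
          funext k
          simp [y, S]
        rw [h1]; exact heK
      | succ N ih =>
        have h1 : y (N + 1) ∈ V N := by
          apply hVF N (y N) (y (N + 1)) _ (hKV N ih)
          intro k hk
          have h2 : k ∈ S (N + 1) ↔ k ∈ S N := by
            simp only [S, Finset.mem_image, Finset.mem_range]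
            constructor
            · rintro ⟨i, hi, rfl⟩
              refine ⟨i, lt_of_le_of_ne (by omega) ?_, rfl⟩
              rintro rfl
              exact hp i hk
            · rintro ⟨i, hi, rfl⟩
              exact ⟨i, by omega, rfl⟩
          simp only [y, h2]
        by_contra h3
        obtain ⟨A, hA, hA'⟩ := hy (N + 1)
        apply heB
        rw [mem_iUnion]
        refine ⟨N, ?_⟩
        simp only [B, mem_iUnion]
        refine ⟨A, Finset.mem_powerset.2 hA, ?_⟩
        rw [mem_preimage, ← hA']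
        exact ⟨h1, h3⟩
    have hlim : Tendsto y atTop (𝓝 x) := by
      rw [tendsto_pi_nhds]
      intro k
      apply tendsto_atTop_of_eventually_const (i₀ := k.1 + 1)
      intro N hN
      simp only [y]
      by_cases h1 : k ∈ S N
      · rw [if_pos h1]
      · rw [if_neg h1]
        have h2 : ¬ (k.2.1 = f k.1 ∧ k.2.2 = 0) := by
          rintro ⟨h2, h3⟩
          apply h1
          simp only [S, Finset.mem_image, Finset.mem_range]
          refine ⟨k.1, by omega, ?_⟩
          exact Prod.ext rfl (Prod.ext h2.symm h3.symm)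
        have h3 : x k = e k := if_neg h2
        exact h3.symm
    exact hK.mem_of_tendsto hlim (Eventually.of_forall hyK)

end Pool.Agent.Y584.UN.Rob
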