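import Pool.Agent.Y444.UN.Defs

/-!
# The additivity of the universally null ideal is at most the dominating number (UN-DOM)

Author helper584, for project UN of helper444.
-/

set_option autoImplicit false

open MeasureTheory Set Filter Topology Cardinal
open scoped ENNReal

namespace Pool.Agent.Y584.UN.Dom

open Pool.Agent.Y444.UN

theorem dNum_attained : ∃ D : Set (ℕ → ℕ),
    (∀ g : ℕ → ℕ, ∃ f ∈ D, ∀ᶠ n in atTop, g n ≤ f n) ∧ #D = dNum := by
  have h1 : {c | ∃ D : Set (ℕ → ℕ), (∀ g : ℕ → ℕ, ∃ f ∈ D, ∀ᶠ n in atTop, g n ≤ f n) ∧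
      #D = c}.Nonempty :=
    ⟨_, univ, fun g => ⟨g, mem_univ _, Eventually.of_forall fun _ => le_rfl⟩, rfl⟩
  exact csInf_mem h1

theorem aleph0_le {D : Set (ℕ → ℕ)}
    (h : ∀ g : ℕ → ℕ, ∃ f ∈ D, ∀ᶠ n in atTop, g n ≤ f n) : ℵ₀ ≤ #D := by
  by_contra hcon
  have hfin : D.Finite := Cardinal.lt_aleph0_iff_set_finite.1 (not_le.1 hcon)
  obtain ⟨f, hf, hf'⟩ := h (fun n => 1 + ∑ f ∈ hfin.toFinset, f n)
  obtain ⟨n, hn⟩ := hf'.exists
  have h1 : f n ≤ ∑ f ∈ hfin.toFinset, f n :=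
    Finset.single_le_sum (f := fun f : ℕ → ℕ => f n) (fun _ _ => Nat.zero_le _)
      (hfin.mem_toFinset.2 hf)
  omega

theorem nc (ι : Type) [Infinite ι] [Countable ι] : ¬ Countable (ι → Bool) := by
  intro h
  have h1 : #(ι → Bool) ≤ ℵ₀ := mk_le_aleph0
  have h2 : #(ι → Bool) = 2 ^ #ι := by
    rw [← Cardinal.power_def, mk_bool]
  rw [h2, mk_eq_aleph0 ι] at h1
  exact absurd (cantor ℵ₀) (not_lt.2 h1)

theorem not_countable_Om : ¬ Countable Om := nc Idx

theorem not_countable_Ca : ¬ Countable (ℕ → Bool) := nc ℕ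

theorem map_symm {α β : Type} [MeasurableSpace α] [MeasurableSpace β]
    [MeasurableSingletonClass α] (e : α ≃ᵐ β) (μ : Measure α)
    (hμ : IsProbabilityMeasure μ) (hμa : ∀ x, μ {x} = 0) :
    IsProbabilityMeasure (μ.map e) ∧ ∀ x, (μ.map e) {x} = 0 := by
  refine ⟨Measure.isProbabilityMeasure_map e.measurable.aemeasurable, fun x => ?_⟩
  rw [e.map_apply]
  have h2 : e ⁻¹' {x} = {e.symm x} := by
    ext y
    rw [mem_preimage, mem_singleton_iff, mem_singleton_iff]
    constructor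
    · intro h
      rw [← h, e.symm_apply_apply]
    · intro h
      rw [h, e.apply_symm_apply]
  rw [h2]
  exact hμa _

/-- **the additivity is at most the dominating number** -/
theorem t : IndStm → InjStm → GrzStm → NonEqStm → NonOmStm → RobStm → HitStm → DomStm := by
  rintro ⟨hP, hPa, -, -⟩ hI ⟨Z, hZ, hZc⟩ hNE ⟨E, hE, hEc⟩ hRob hHit
  obtain ⟨D, hD, hDc⟩ := dNum_attained
  have hD0 := aleph0_le hD
  have hnR : ¬ Countable ℝ := fun h => not_countable h
  let b := PolishSpace.measurableEquivOfNotCountable not_countable_Om hnR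
  let c := PolishSpace.measurableEquivOfNotCountable not_countable_Ca hnR
  have hEZ : #E = #Z := by rw [hEc, hZc, hNE]
  obtain ⟨ι⟩ := Cardinal.eq.1 hEZ
  let z : E → (ℕ → Bool) := fun e => c.symm (ι e)
  have hz : Function.Injective z := fun e e' h =>
    ι.injective (Subtype.ext (c.symm.injective h))
  have hcz : ∀ e, c (z e) ∈ Z := by
    intro e
    change c (c.symm (ι e)) ∈ Z
    rw [c.apply_symm_apply]
    exact (ι e).2
  -- the sets
  let fk : D × ℕ × Finset Idx → ℕ → ℕ := fun i n => max (i.1.1 n) i.2.1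
  let X : D × ℕ × Finset Idx → Set Om := fun i =>
    range (fun e : E => comb (fk i) (Pool.Agent.Y444.UN.flip i.2.2 e) (z e))
  have hX : ∀ i, UNull (X i) := by
    intro i
    let g : Om → (ℕ → Bool) := fun x n => x (n, fk i n, 0)
    have hg : Measurable g := measurable_pi_lambda _ fun n => measurable_pi_apply _
    have hgc : ∀ (x : Om) (w : ℕ → Bool), g (comb (fk i) x w) = w := by
      intro x w
      funext n
      exact if_pos ⟨rfl, rfl⟩
    apply hI _ _ g _ hg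
    · rintro _ ⟨e, rfl⟩ _ ⟨e', rfl⟩ h
      have h' : g (comb (fk i) (Pool.Agent.Y444.UN.flip i.2.2 e) (z e)) =
        g (comb (fk i) (Pool.Agent.Y444.UN.flip i.2.2 e') (z e')) := h
      rw [hgc, hgc] at h'
      have := hz h'
      subst this
      rfl
    · intro μ hμ hμa
      have hsub : g '' X i ⊆ c ⁻¹' Z := by
        rintro _ ⟨_, ⟨e, rfl⟩, rfl⟩
        rw [mem_preimage]
        have h1 := hgc (Pool.Agent.Y444.UN.flip i.2.2 e) (z e)
        change c (g (comb (fk i) (Pool.Agent.Y444.UN.flip i.2.2 e) (z e))) ∈ Z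
        rw [h1]
        exact hcz e
      refine measure_mono_null hsub ?_
      rw [← c.map_apply]
      obtain ⟨h1, h2⟩ := map_symm c μ hμ hμa
      exact hZ _ h1 h2
  have hbX : ∀ i, IsUN (b '' X i) := by
    intro i ν hν hνa
    have h1 : b '' X i = b.symm ⁻¹' X i := b.image_eq_preimage_symm _
    rw [h1, ← b.symm.map_apply]
    obtain ⟨h2, h3⟩ := map_symm b.symm ν hν hνa
    exact hX i _ h2 h3
  -- the union
  have hUn : P (⋃ i, X i) ≠ 0 := by
    intro h0
    have h1 : P (⋃ i, X i) < 1 := by rw [h0]; exact one_pos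
    obtain ⟨U, hU, hUo, hU1⟩ := (⋃ i, X i).exists_isOpen_lt_of_lt 1 h1
    have hK : P Uᶜ ≠ 0 := by
      rw [prob_compl_eq_one_sub hUo.measurableSet]
      exact (tsub_pos_iff_lt.2 hU1).ne'
    obtain ⟨φ, hφ⟩ := hRob Uᶜ hUo.isClosed_compl hK
    obtain ⟨f, hf, hf'⟩ := hD φ
    obtain ⟨n0, hn0⟩ := eventually_atTop.1 hf'
    let k := (Finset.range n0).sup φ
    have hle : ∀ n, φ n ≤ max (f n) k := by
      intro n
      by_cases h : n < n0
      · exact le_max_of_le_right (Finset.le_sup (f := φ) (Finset.mem_range.2 h))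
      · exact le_max_of_le_left (hn0 n (not_lt.1 h))
    obtain ⟨R, hRm, hR0, hR⟩ := hφ (fun n => max (f n) k) hle
    obtain ⟨A, e, he, heR⟩ := hHit E R hE hRm hR0
    have h2 := hR _ heR (z ⟨e, he⟩)
    apply h2
    apply hU
    rw [mem_iUnion]
    exact ⟨⟨⟨f, hf⟩, k, A⟩, ⟨e, he⟩, rfl⟩
  -- the family
  have hfam : #(range fun i => b '' X i) ∈ {c | ∃ F : Set (Set ℝ), (∀ X ∈ F, IsUN X) ∧
      ¬ IsUN (⋃₀ F) ∧ #F = c} := by
    refine ⟨_, ?_, ?_, rfl⟩
    · rintro _ ⟨i, rfl⟩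
      exact hbX i
    · intro h
      obtain ⟨h1, h2⟩ := map_symm b P hP hPa
      have h3 := h _ h1 h2
      rw [b.map_apply] at h3
      apply hUn
      refine measure_mono_null ?_ h3
      intro x hx
      obtain ⟨i, hi⟩ := mem_iUnion.1 hx
      rw [mem_preimage]
      exact ⟨_, ⟨i, rfl⟩, x, hi, rfl⟩
  have hle : addOf IsUN ≤ #(range fun i => b '' X i) := csInf_le' hfam
  refine hle.trans (mk_range_le.trans ?_)
  rw [← hDc, mk_prod, mk_prod, lift_id, lift_id, lift_id, lift_id]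
  have h1 : #ℕ * #(Finset Idx) ≤ ℵ₀ := by
    rw [mk_nat]
    have h2 : #(Finset Idx) ≤ ℵ₀ := mk_le_aleph0
    exact (mul_le_mul' le_rfl h2).trans (le_of_eq aleph0_mul_aleph0)
  calc #D * (#ℕ * #(Finset Idx)) ≤ #D * ℵ₀ := mul_le_mul' le_rfl h1
    _ = #D := mul_aleph0_eq hD0
    _ ≤ #D := le_rfl

end Pool.Agent.Y584.UN.Dom
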