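import Pool.Agent.Y444.UN.Defs

/-!
# Null sets coded by functions (UN-CODES)

Author helper584, for project UN of helper444.
-/

set_option autoImplicit false

open MeasureTheory Set Filter Topology
open scoped ENNReal

namespace Pool.Agent.Y584.UN.Codes

open Pool.Agent.Y444.UN

section cover

variable (b : ℕ → Set ℝ)

/-- the countable family of differences -/
def W (p : ℕ × Finset ℕ) : Set ℝ := b p.1 \ ⋃ j ∈ p.2, b j

open Classical in
/-- the codes of the pieces of `V` -/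
noncomputable def cd (V : Set ℝ) (r : ℕ) : ℕ × Finset ℕ :=
  (r, if b r ⊆ V then (Finset.range r).filter (fun j => b j ⊆ V) else {r})

open Classical in
theorem mem_W_cd {V : Set ℝ} {r : ℕ} {y : ℝ} :
    y ∈ W b (cd b V r) ↔ b r ⊆ V ∧ y ∈ b r ∧ ∀ j < r, b j ⊆ V → y ∉ b j := by
  have h1 : y ∈ W b (cd b V r) ↔ y ∈ b r ∧ y ∉ ⋃ j ∈ (cd b V r).2, b j := Iff.rfl
  rw [h1]
  by_cases h : b r ⊆ V
  · have h2 : (cd b V r).2 = (Finset.range r).filter (fun j => b j ⊆ V) := if_pos h
    rw [h2]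
    simp only [mem_iUnion, Finset.mem_filter, Finset.mem_range, not_exists]
    constructor
    · rintro ⟨h3, h4⟩
      exact ⟨h, h3, fun j hj hV hy => h4 j ⟨hj, hV⟩ hy⟩
    · rintro ⟨-, h3, h4⟩
      exact ⟨h3, fun j hj hy => h4 j hj.1 hj.2 hy⟩
  · have h2 : (cd b V r).2 = {r} := if_neg h
    rw [h2]
    simp only [mem_iUnion, Finset.mem_singleton, not_exists]
    constructor
    · rintro ⟨h3, h4⟩
      exact absurd h3 (h4 r rfl)
    · rintro ⟨h3, -⟩
      exact absurd h3 h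

theorem measurable_W (hb : ∀ k, IsOpen (b k)) (p : ℕ × Finset ℕ) : MeasurableSet (W b p) :=
  (hb _).measurableSet.diff (Finset.measurableSet_biUnion _ fun j _ => (hb j).measurableSet)

theorem disj (V : Set ℝ) : Pairwise (Function.onFun Disjoint fun r => W b (cd b V r)) := by
  have key : ∀ r r', r < r' → Disjoint (W b (cd b V r)) (W b (cd b V r')) := by
    intro r r' h
    rw [Set.disjoint_left]
    intro y h1 h2
    rw [mem_W_cd] at h1 h2
    exact h2.2.2 r h h1.1 h1.2.1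
  intro r r' h
  rcases lt_or_gt_of_ne h with h | h
  · exact key r r' h
  · exact (key r' r h).symm

theorem exists_W {V : Set ℝ} {y : ℝ} (h : ∃ k, y ∈ b k ∧ b k ⊆ V) :
    ∃ r, y ∈ W b (cd b V r) := by
  classical
  refine ⟨Nat.find h, (mem_W_cd b).2 ⟨(Nat.find_spec h).2, (Nat.find_spec h).1, ?_⟩⟩
  intro j hj hV hy
  exact Nat.find_min h hj ⟨hy, hV⟩

theorem sum_W (ρ : Measure ℝ) (hb : ∀ k, IsOpen (b k)) (V : Set ℝ) :
    ∑' r, ρ (W b (cd b V r)) ≤ ρ V := by
  rw [← measure_iUnion (disj b V) (fun r => measurable_W b hb _)]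
  apply measure_mono
  apply iUnion_subset
  intro r y hy
  rw [mem_W_cd] at hy
  exact hy.1 hy.2.1

end cover

/-- **null sets are coded by functions** -/
theorem t : CodesStm := by
  intro ρ _ ε hε
  -- a countable basis
  obtain ⟨b, hb, hbas⟩ : ∃ b : ℕ → Set ℝ, (∀ k, IsOpen (b k)) ∧
      ∀ V : Set ℝ, IsOpen V → ∀ y ∈ V, ∃ k, y ∈ b k ∧ b k ⊆ V := by
    have h1 := TopologicalSpace.isBasis_countableBasis ℝ
    have h2 := TopologicalSpace.countable_countableBasis ℝ
    obtain ⟨s0, hs0, -, -⟩ := h1.exists_subset_of_mem_open (mem_univ (0 : ℝ)) isOpen_univ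
    obtain ⟨b, hb⟩ := h2.exists_eq_range ⟨s0, hs0⟩
    refine ⟨b, fun k => h1.isOpen (hb ▸ mem_range_self k), fun V hV y hy => ?_⟩
    obtain ⟨s, hs, hys, hsV⟩ := h1.exists_subset_of_mem_open hy hV
    rw [hb] at hs
    obtain ⟨k, rfl⟩ := hs
    exact ⟨k, hys, hsV⟩
  obtain ⟨g, hg⟩ := exists_surjective_nat (Finset (ℕ × Finset ℕ))
  let S : Finset (ℕ × Finset ℕ) → Set ℝ := fun t => ⋃ p ∈ t, W b p
  have hS : ∀ t, MeasurableSet (S t) := fun t =>
    Finset.measurableSet_biUnion _ fun p _ => measurable_W b hb p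
  classical
  refine ⟨fun n i => if ρ (S (g i)) ≤ ε n then S (g i) else ∅, ?_, ?_, ?_⟩
  · intro n i
    dsimp only
    split_ifs
    · exact hS _
    · exact MeasurableSet.empty
  · intro n i
    dsimp only
    split_ifs with h
    · exact h
    · rw [measure_empty]; exact bot_le
  · intro N hN
    have hV : ∀ m : ℕ, ∃ V ⊇ N, IsOpen V ∧ ρ V < (2 : ℝ≥0∞)⁻¹ ^ m := by
      intro m
      apply N.exists_isOpen_lt_of_lt
      rw [hN]
      exact ENNReal.pow_pos (by simp) m
    choose V hNV hVo hVρ using hV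
    let c : ℕ → ℕ × Finset ℕ := fun l => cd b (V l.unpair.1) l.unpair.2
    let w : ℕ → ℝ≥0∞ := fun l => ρ (W b (c l))
    have hsum : ∑' l, w l ≠ ∞ := by
      have h1 : ∑' l, w l = ∑' p : ℕ × ℕ, ρ (W b (cd b (V p.1) p.2)) := by
        rw [← Nat.pairEquiv.tsum_eq w]
        apply tsum_congr
        rintro ⟨m, r⟩
        simp only [w, c, Nat.pairEquiv_apply, Function.uncurry, Nat.unpair_pair]
      rw [h1, ENNReal.tsum_prod (f := fun m r => ρ (W b (cd b (V m) r)))]
      have h2 : ∑' m, ∑' r, ρ (W b (cd b (V m) r)) ≤ ∑' m, (2 : ℝ≥0∞)⁻¹ ^ m :=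
        ENNReal.tsum_le_tsum fun m => (sum_W b ρ hb (V m)).trans (hVρ m).le
      refine ne_top_of_le_ne_top ?_ h2
      rw [ENNReal.tsum_geometric, ENNReal.one_sub_inv_two, inv_inv]
      simp
    have htail := ENNReal.tendsto_sum_nat_add w hsum
    have hev : ∀ n, ∀ᶠ k in atTop, ∑' i, w (i + k) ≤ ε n := fun n =>
      (htail.eventually (ge_mem_nhds (pos_iff_ne_zero.2 (hε n))))
    obtain ⟨φ, hφ, hφ'⟩ := extraction_forall_of_eventually hev
    let T : ℕ → Finset (ℕ × Finset ℕ) := fun n => (Finset.Ico (φ n) (φ (n + 1))).image c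
    have hT : ∀ n, ρ (S (T n)) ≤ ε n := by
      intro n
      have h1 : S (T n) = ⋃ l ∈ Finset.Ico (φ n) (φ (n + 1)), W b (c l) := by
        simp only [S, T]
        ext y
        simp only [mem_iUnion, Finset.mem_image]
        constructor
        · rintro ⟨p, ⟨l, hl, rfl⟩, hy⟩
          exact ⟨l, hl, hy⟩
        · rintro ⟨l, hl, hy⟩
          exact ⟨c l, ⟨l, hl, rfl⟩, hy⟩
      rw [h1]
      refine (measure_biUnion_finset_le _ _).trans (le_trans ?_ (hφ' n))
      rw [Finset.sum_Ico_eq_sum_range]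
      refine le_trans (le_of_eq ?_) (ENNReal.sum_le_tsum (Finset.range (φ (n + 1) - φ n)))
      apply Finset.sum_congr rfl
      intro i _
      rw [add_comm]
    choose f hf using fun n => hg (T n)
    refine ⟨f, ?_⟩
    intro y hy
    rw [Set.mem_ofPred_eq, frequently_atTop]
    intro n0
    -- infinitely many `l`
    have h1 : ∀ m, ∃ r, y ∈ W b (cd b (V m) r) := fun m =>
      exists_W b (hbas (V m) (hVo m) y (hNV m hy))
    choose r hr using h1
    obtain ⟨l, hl, hyl⟩ : ∃ l, φ n0 ≤ l ∧ y ∈ W b (c l) := by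
      refine ⟨Nat.pair (φ n0) (r (φ n0)), Nat.left_le_pair _ _, ?_⟩
      simp only [c, Nat.unpair_pair]
      exact hr _
    -- the block of `l`
    obtain ⟨n, hn, hn1, hn2⟩ : ∃ n, n0 ≤ n ∧ φ n ≤ l ∧ l < φ (n + 1) := by
      have hex : ∃ k, l < φ (k + 1) := ⟨l, (Nat.lt_succ_self l).trans_le (hφ.id_le (l + 1))⟩
      refine ⟨Nat.find hex, ?_, ?_, Nat.find_spec hex⟩
      · by_contra hlt
        have h2 := Nat.find_spec hex
        have h3 : φ (Nat.find hex + 1) ≤ φ n0 := hφ.monotone (by omega)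
        omega
      · rcases Nat.eq_zero_or_pos (Nat.find hex) with h2 | h2
        · rw [h2]
          exact (hφ.monotone (Nat.zero_le n0)).trans hl
        · have h3 := Nat.find_min hex (m := Nat.find hex - 1) (by omega)
          rw [show Nat.find hex - 1 + 1 = Nat.find hex by omega] at h3
          omega
    refine ⟨n, hn, ?_⟩
    dsimp only
    rw [hf n, if_pos (hT n)]
    simp only [S, T, mem_iUnion, Finset.mem_image]
    exact ⟨c l, ⟨l, Finset.mem_Ico.2 ⟨hn1, hn2⟩, rfl⟩, hyl⟩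

end Pool.Agent.Y584.UN.Codes
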