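import Pool.Agent.Y444.UN.Defs

/-!
# Grzegorek's theorem (UN-GRZ)

Author helper584, for project UN of helper444.
-/

set_option autoImplicit false

open MeasureTheory Set Filter Topology Cardinal
open scoped ENNReal

namespace Pool.Agent.Y584.UN.Grz

open Pool.Agent.Y444.UN

theorem not_univ : ¬ IsUN univ := by
  intro h
  have h1 := h (volume.restrict (Icc 0 1)) ⟨by simp⟩ (by intro x; simp)
  simp at h1

theorem small {E X : Set ℝ} (hE : #E = nonOf IsUN) (hX : #X < #E) : IsUN X := by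
  by_contra h
  rw [hE] at hX
  have h1 : #X ∈ {c | ∃ X : Set ℝ, ¬ IsUN X ∧ #X = c} := ⟨X, h, rfl⟩
  exact absurd (csInf_le' h1) (not_le.2 hX)

theorem exists_nonUN : ∃ E : Set ℝ, ¬ IsUN E ∧ #E = nonOf IsUN := by
  have h1 : {c | ∃ X : Set ℝ, ¬ IsUN X ∧ #X = c}.Nonempty := ⟨_, univ, not_univ, rfl⟩
  exact csInf_mem h1

/-- the null set with the code `c` -/
def M (G : ℕ → ℕ → Set ℝ) (c : ℕ → ℕ) : Set ℝ := {y | ∃ᶠ n in atTop, y ∈ G n (c n)}

theorem measurable_D {G : ℕ → ℕ → Set ℝ} (hG : ∀ n i, MeasurableSet (G n i)) :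
    MeasurableSet {p : ((ℕ → ℕ) × ℝ) × ℝ | p.2 ∈ M G p.1.1} := by
  have h1 : {p : ((ℕ → ℕ) × ℝ) × ℝ | p.2 ∈ M G p.1.1} =
      ⋂ n : ℕ, ⋃ m : ℕ, ⋃ _ : n ≤ m, ⋃ i : ℕ,
        ({p : ((ℕ → ℕ) × ℝ) × ℝ | p.1.1 m = i} ∩ {p | p.2 ∈ G m i}) := by
    ext p
    simp only [M, Set.mem_ofPred_eq, frequently_atTop, mem_iInter, mem_iUnion, mem_inter_iff]
    constructor
    · intro h n
      obtain ⟨m, hm, hp⟩ := h n
      exact ⟨m, hm, _, rfl, hp⟩
    · intro h n
      obtain ⟨m, hm, i, hi, hp⟩ := h n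
      exact ⟨m, hm, by rw [hi]; exact hp⟩
  rw [h1]
  refine MeasurableSet.iInter fun n => MeasurableSet.iUnion fun m => MeasurableSet.iUnion fun _ =>
    MeasurableSet.iUnion fun i => ?_
  refine MeasurableSet.inter ?_ ?_
  · have h2 : Measurable (fun p : ((ℕ → ℕ) × ℝ) × ℝ => p.1.1 m) :=
      (measurable_pi_apply m).comp (measurable_fst.comp measurable_fst)
    exact h2 (measurableSet_singleton i)
  · exact measurable_snd (hG m i)

/-- **Grzegorek's theorem** -/
theorem t : CodesStm → InjStm → GrzStm := by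
  intro hC hI
  obtain ⟨E, hE, hEc⟩ := exists_nonUN
  have hE' := hE
  unfold IsUN at hE'
  push Not at hE'
  obtain ⟨ρ, hρ, hρa, hρE⟩ := hE'
  have := hρ
  obtain ⟨r, wo, hr⟩ := Cardinal.exists_ord_eq E
  -- codes
  obtain ⟨G, hGm, hGρ, hGc⟩ := hC ρ (fun n => (2 : ℝ≥0∞)⁻¹ ^ n)
    (fun n => (ENNReal.pow_pos (by simp) n).ne')
  have hseg : ∀ e : E, ∀ s : Set ℝ, s ⊆ {x | ∃ y : E, r y e ∧ x = y} → #s < #E := by
    intro e s hs
    have h1 : #{y // r y e} < #E := by
      rw [← Ordinal.card_typein]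
      exact card_typein_lt e hr
    refine lt_of_le_of_lt ?_ h1
    have h2 : s ⊆ range (fun y : {y // r y e} => ((y : E) : ℝ)) := by
      intro x hx
      obtain ⟨y, hy, rfl⟩ := hs hx
      exact ⟨⟨y, hy⟩, rfl⟩
    exact (mk_le_mk_of_subset h2).trans mk_range_le
  have hcode : ∀ e : E, ∃ c : ℕ → ℕ, {x : ℝ | ∃ y : E, r y e ∧ x = y} ⊆ M G c := by
    intro e
    exact hGc _ (small hEc (hseg e _ subset_rfl) ρ hρ hρa)
  choose c hc using hcode
  have hM : ∀ c : ℕ → ℕ, ρ (M G c) = 0 := by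
    intro c
    apply measure_setOfPred_frequently_eq_zero
    have h1 : ∑' i, ρ {x | x ∈ G i (c i)} ≤ ∑' i, (2 : ℝ≥0∞)⁻¹ ^ i :=
      ENNReal.tsum_le_tsum fun i => hGρ i (c i)
    refine ne_top_of_le_ne_top ?_ h1
    rw [ENNReal.tsum_geometric, ENNReal.one_sub_inv_two, inv_inv]
    simp
  -- the set in the product
  let z : E → (ℕ → ℕ) × ℝ := fun e => (c e, e)
  have hz : Function.Injective z := by
    intro e e' h
    exact Subtype.ext (congrArg Prod.snd h)
  have hUN : UNull (range z) := by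
    intro μ hμ hμa
    have := hμ
    let D : Set (((ℕ → ℕ) × ℝ) × ℝ) := {p | p.2 ∈ M G p.1.1}
    have hD : MeasurableSet D := measurable_D hGm
    have h1 : (μ.prod ρ) D = 0 := by
      rw [Measure.measure_prod_null hD]
      refine Filter.Eventually.of_forall fun q => ?_
      exact hM q.1
    have h2 : (ρ.prod μ) (Prod.swap ⁻¹' D) = 0 := by
      rw [← Measure.map_apply measurable_swap hD, Measure.prod_swap]
      exact h1
    have h3 := Measure.measure_ae_null_of_prod_null h2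
    have h4 : ρ {y | ¬ μ {q : (ℕ → ℕ) × ℝ | y ∈ M G q.1} = 0} = 0 := by
      have := h3
      rw [Filter.EventuallyEq, ae_iff] at this
      exact this
    obtain ⟨e0, he0, he0'⟩ : ∃ e0 ∈ E, μ {q : (ℕ → ℕ) × ℝ | e0 ∈ M G q.1} = 0 := by
      by_contra hcon
      push Not at hcon
      apply hρE
      exact measure_mono_null (fun x hx => hcon x hx) h4
    have hsub : range z ⊆ {q : (ℕ → ℕ) × ℝ | e0 ∈ M G q.1} ∪
        (z '' {e | r e ⟨e0, he0⟩} ∪ {z ⟨e0, he0⟩}) := by
      rintro _ ⟨e, rfl⟩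
      rcases trichotomous_of r e ⟨e0, he0⟩ with h | h | h
      · exact Or.inr (Or.inl ⟨e, h, rfl⟩)
      · exact Or.inr (Or.inr (by rw [h]; rfl))
      · left
        exact hc e ⟨⟨e0, he0⟩, h, rfl⟩
    have h5 : UNull (z '' {e | r e ⟨e0, he0⟩}) := by
      apply hI _ _ Prod.snd _ measurable_snd
      · rintro _ ⟨e, _, rfl⟩ _ ⟨e', _, rfl⟩ h
        exact congrArg z (Subtype.ext h)
      · have h6 : IsUN (Prod.snd '' (z '' {e | r e ⟨e0, he0⟩})) := by
          apply small hEc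
          apply hseg ⟨e0, he0⟩
          rintro _ ⟨_, ⟨e, he, rfl⟩, rfl⟩
          exact ⟨e, he, rfl⟩
        exact h6
    exact measure_mono_null hsub (measure_union_null he0' (measure_union_null (h5 μ hμ hμa)
      (hμa _)))
  -- transport to the line
  have hnc1 : ¬ Countable ((ℕ → ℕ) × ℝ) := by
    intro h
    have h1 : Countable ℝ :=
      (Function.Injective.countable (f := fun x : ℝ => ((fun _ => 0 : ℕ → ℕ), x))
        (fun x y h => congrArg Prod.snd h))
    exact not_countable h1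
  have hnc2 : ¬ Countable ℝ := fun h => not_countable h
  let Φ := PolishSpace.measurableEquivOfNotCountable hnc1 hnc2
  refine ⟨Φ '' range z, ?_, ?_⟩
  · intro ν hν hνa
    have h1 : Φ '' range z = Φ.symm ⁻¹' range z := Φ.image_eq_preimage_symm _
    rw [h1, ← Φ.symm.map_apply]
    apply hUN
    · exact Measure.isProbabilityMeasure_map Φ.symm.measurable.aemeasurable
    · intro x
      rw [Φ.symm.map_apply]
      have h2 : Φ.symm ⁻¹' {x} = {Φ x} := by
        ext y
        rw [mem_preimage, mem_singleton_iff, mem_singleton_iff]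
        exact Φ.symm_apply_eq
      rw [h2]
      exact hνa _
  · rw [mk_image_eq Φ.injective, mk_range_eq z hz, hEc]

end Pool.Agent.Y584.UN.Grz
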