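import Pool.Agent.Y444.UN.Defs

/-!
# Finite changes: the zero-one law (UN-HIT)

Author helper584, for project UN of helper444.
-/

set_option autoImplicit false

open MeasureTheory Set Filter Topology
open scoped ENNReal

namespace Pool.Agent.Y584.UN.Hit

open Pool.Agent.Y444.UN

/-- cylinders -/
def Cy (H : Finset Idx) (s : Om) : Set Om := {x | ∀ k ∈ H, x k = s k}

/-- the family of the cylinders -/
def CC : Set (Set Om) := {C | ∃ (H : Finset Idx) (s : Om), C = Cy H s}

theorem measurable_Cy (H : Finset Idx) (s : Om) : MeasurableSet (Cy H s) := by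
  have h1 : Cy H s = ⋂ k ∈ H, {x : Om | x k = s k} := by
    ext x; simp [Cy]
  rw [h1]
  exact Finset.measurableSet_biInter _ fun k _ => (measurable_pi_apply k) (measurableSet_singleton _)

theorem gen : (inferInstance : MeasurableSpace Om) = MeasurableSpace.generateFrom CC := by
  apply le_antisymm
  · apply iSup_le
    intro k
    rw [← measurable_iff_comap_le]
    refine @measurable_to_bool Om (MeasurableSpace.generateFrom CC) _ ?_
    apply MeasurableSpace.measurableSet_generateFrom
    refine ⟨{k}, fun _ => true, ?_⟩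
    ext x
    simp [Cy]
  · apply MeasurableSpace.generateFrom_le
    rintro _ ⟨H, s, rfl⟩
    exact measurable_Cy H s

theorem isPi : IsPiSystem CC := by
  rintro _ ⟨H, s, rfl⟩ _ ⟨H', s', rfl⟩ ⟨x, hx, hx'⟩
  classical
  refine ⟨H ∪ H', x, ?_⟩
  ext y
  simp only [Cy, mem_inter_iff, Set.mem_ofPred_eq, Finset.mem_union]
  constructor
  · rintro ⟨h1, h2⟩ k (hk | hk)
    · rw [h1 k hk, hx k hk]
    · rw [h2 k hk, hx' k hk]
  · intro h
    exact ⟨fun k hk => by rw [h k (Or.inl hk), hx k hk], fun k hk => by
      rw [h k (Or.inr hk), hx' k hk]⟩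

/-- **finite changes** -/
theorem t : IndStm → HitStm := by
  rintro ⟨hP, -, hflip, hind⟩ E R hE hR hR0
  classical
  let U : Set Om := ⋃ A : Finset Idx, (Pool.Agent.Y444.UN.flip A) ⁻¹' R
  have hU : MeasurableSet U := MeasurableSet.iUnion fun A => (hflip A).measurable hR
  have hU0 : P U ≠ 0 := by
    intro h
    apply hR0
    refine measure_mono_null ?_ h
    intro x hx
    rw [mem_iUnion]
    refine ⟨∅, ?_⟩
    have h1 : Pool.Agent.Y444.UN.flip ∅ x = x := by
      funext k
      simp [Pool.Agent.Y444.UN.flip]
    rw [mem_preimage, h1]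
    exact hx
  have hinv : ∀ (H : Finset Idx) (x y : Om), (∀ k, k ∉ H → x k = y k) → x ∈ U → y ∈ U := by
    intro H x y hxy hx
    rw [mem_iUnion] at hx ⊢
    obtain ⟨A, hA⟩ := hx
    refine ⟨symmDiff A (H.filter fun k => x k ≠ y k), ?_⟩
    rw [mem_preimage] at hA ⊢
    have h1 : Pool.Agent.Y444.UN.flip (symmDiff A (H.filter fun k => x k ≠ y k)) y =
        Pool.Agent.Y444.UN.flip A x := by
      funext k
      simp only [Pool.Agent.Y444.UN.flip, Finset.mem_symmDiff, Finset.mem_filter]
      by_cases h2 : k ∈ A
      · by_cases h3 : x k = y k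
        · rw [if_pos (by tauto), if_pos h2, h3]
        · have h4 : k ∈ H := by
            by_contra h5
            exact h3 (hxy k h5)
          rw [if_neg (by tauto), if_pos h2]
          revert h3
          cases x k <;> cases y k <;> simp
      · by_cases h3 : x k = y k
        · rw [if_neg (by tauto), if_neg h2, h3]
        · have h4 : k ∈ H := by
            by_contra h5
            exact h3 (hxy k h5)
          rw [if_pos (by tauto), if_neg h2]
          revert h3
          cases x k <;> cases y k <;> simp
    rw [h1]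
    exact hA
  have hcy : ∀ (H : Finset Idx) (s : Om), P (U ∩ Cy H s) = P U * P (Cy H s) := by
    intro H s
    have h1 := hind U H s hU (hinv H)
    have h2 := hind univ H s MeasurableSet.univ (fun _ _ _ _ => mem_univ _)
    rw [univ_inter, measure_univ, mul_one] at h2
    change P (U ∩ Cy H s) = _ at h1
    change P (Cy H s) = _ at h2
    rw [h1, h2, mul_comm]
  have hfin : IsFiniteMeasure (P.restrict U) := inferInstance
  have heq : P.restrict U = (P U) • P := by
    refine ext_of_generate_finite CC gen isPi ?_ ?_
    · rintro _ ⟨H, s, rfl⟩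
      rw [Measure.restrict_apply (measurable_Cy H s), inter_comm, hcy, Measure.smul_apply,
        smul_eq_mul]
    · rw [Measure.restrict_apply_univ, Measure.smul_apply, measure_univ, smul_eq_mul, mul_one]
  have h0 : P U * P Uᶜ = 0 := by
    have h1 : (P.restrict U) Uᶜ = ((P U) • P) Uᶜ := by rw [heq]
    rw [Measure.restrict_apply hU.compl, compl_inter_self, measure_empty, Measure.smul_apply,
      smul_eq_mul] at h1
    exact h1.symm
  have hUc : P Uᶜ = 0 := (mul_eq_zero.1 h0).resolve_left hU0
  have hex : ∃ e ∈ E, e ∈ U := by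
    by_contra hcon
    push Not at hcon
    exact hE (measure_mono_null (fun x hx => hcon x hx) hUc)
  obtain ⟨e, he, heU⟩ := hex
  rw [mem_iUnion] at heU
  obtain ⟨A, hA⟩ := heU
  exact ⟨A, e, he, hA⟩

end Pool.Agent.Y584.UN.Hit
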